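import Pool.Agent.MP_fcd29e_an.H31.Spec3

/-!
Dilations and the Sobolev norm of negative order.
-/

set_option autoImplicit false

open MeasureTheory Complex Set Filter Topology Metric Pool.Agent.MP_fcd29e_an.H81
  Pool.Agent.MP_fcd29e_an.H31
open scoped ContDiff ComplexConjugate ENNReal NNReal FourierTransform SchwartzMap

namespace Pool.Agent.MP_fcd29e_an.H45

variable {N : ℕ}

theorem dil_inner (c : ℂ) (v η : E N) : inner ℝ v (conj c • η) = inner ℝ (c • v) η := by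
  rw [inner_real, inner_real, inner_smul_left, inner_smul_right]

theorem dil_fourier (L : Lv0) {c : ℂ} (hc : c ≠ 0) (ψ : E N → ℂ) (η : E N) :
    𝓕 (fun y => ψ (c • y)) (conj c • η) = ((‖c‖ ^ (2 * N) : ℝ) : ℂ)⁻¹ * 𝓕 ψ η := by
  have h := (L.t0.1 N c hc).1 fun w => Real.fourierChar (-inner ℝ w η) • ψ w
  rw [Real.fourier_eq, Real.fourier_eq, ← h]
  simp only [dil_inner]

theorem dil_weight {s a r t : ℝ} (hs : 0 ≤ s) (ha : 0 < a) (hr : a ≤ r) :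
    (1 + (r * t) ^ 2) ^ (-s) ≤ (min 1 (a ^ 2)) ^ (-s) * (1 + t ^ 2) ^ (-s) := by
  have hm : 0 < min 1 (a ^ 2) := lt_min one_pos (by positivity)
  rw [← Real.mul_rpow hm.le (by positivity)]
  refine Real.rpow_le_rpow_of_nonpos (by positivity) ?_ (by linarith)
  have h1 : min 1 (a ^ 2) ≤ 1 := min_le_left _ _
  have h2 : min 1 (a ^ 2) ≤ r ^ 2 := (min_le_right _ _).trans (pow_le_pow_left₀ ha.le hr 2)
  have h3 := mul_le_mul_of_nonneg_right h2 (sq_nonneg t)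
  rw [mul_pow]
  linarith

theorem dil0 (L : Lv0) : StmtDIL := by
  intro N s a hs ha
  have hm : 0 < min 1 (a ^ 2) := lt_min one_pos (by positivity)
  have hK : 0 ≤ (min 1 (a ^ 2)) ^ (-s) := Real.rpow_nonneg hm.le _
  refine ⟨((min 1 (a ^ 2)) ^ (-s) * (a ^ (2 * N))⁻¹).toNNReal, fun c hac ψ _ => ?_⟩
  have hc0 : 0 < ‖c‖ := ha.trans_le hac
  have hc : c ≠ 0 := norm_pos_iff.1 hc0
  have hd : conj c ≠ 0 := by simpa using hc
  have hP : 0 < ‖c‖ ^ (2 * N) := by positivity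
  have h1 := (L.t0.1 N (conj c) hd).2.1 fun ξ =>
    ENNReal.ofReal ((1 + ‖ξ‖ ^ 2) ^ (-s) * ‖𝓕 (fun y => ψ (c • y)) ξ‖ ^ 2)
  rw [RCLike.norm_conj] at h1
  have h2 : FN s (fun y => ψ (c • y)) = ENNReal.ofReal (‖c‖ ^ (2 * N)) *
      ∫⁻ η : E N, ENNReal.ofReal ((1 + ‖conj c • η‖ ^ 2) ^ (-s) *
        ‖𝓕 (fun y => ψ (c • y)) (conj c • η)‖ ^ 2) := by
    rw [h1, ← mul_assoc, ← ENNReal.ofReal_mul hP.le, mul_inv_cancel₀ hP.ne', ENNReal.ofReal_one,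
      one_mul]
    rfl
  have h3 : ∀ η : E N, ENNReal.ofReal ((1 + ‖conj c • η‖ ^ 2) ^ (-s) *
      ‖𝓕 (fun y => ψ (c • y)) (conj c • η)‖ ^ 2) ≤
      ENNReal.ofReal ((min 1 (a ^ 2)) ^ (-s) * ((‖c‖ ^ (2 * N))⁻¹) ^ 2) *
        ENNReal.ofReal ((1 + ‖η‖ ^ 2) ^ (-s) * ‖𝓕 ψ η‖ ^ 2) := by
    intro η
    rw [← ENNReal.ofReal_mul (by positivity), dil_fourier L hc, norm_smul, RCLike.norm_conj,
      norm_mul, norm_inv, Complex.norm_real, Real.norm_of_nonneg hP.le]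
    refine ENNReal.ofReal_le_ofReal ?_
    refine (mul_le_mul_of_nonneg_right (dil_weight hs ha hac) (by positivity)).trans_eq ?_
    ring
  have h4 : ‖c‖ ^ (2 * N) * ((min 1 (a ^ 2)) ^ (-s) * ((‖c‖ ^ (2 * N))⁻¹) ^ 2) ≤
      (min 1 (a ^ 2)) ^ (-s) * (a ^ (2 * N))⁻¹ := by
    have e : ‖c‖ ^ (2 * N) * ((min 1 (a ^ 2)) ^ (-s) * ((‖c‖ ^ (2 * N))⁻¹) ^ 2) =
        (min 1 (a ^ 2)) ^ (-s) * (‖c‖ ^ (2 * N))⁻¹ := by
      field_simp
    rw [e]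
    exact mul_le_mul_of_nonneg_left
      (inv_anti₀ (by positivity) (pow_le_pow_left₀ ha.le hac _)) hK
  rw [h2]
  refine (mul_le_mul_right (lintegral_mono h3) _).trans ?_
  rw [lintegral_const_mul' _ _ ENNReal.ofReal_ne_top, ← mul_assoc, ← ENNReal.ofReal_mul hP.le]
  exact mul_le_mul_left (ENNReal.ofReal_le_ofReal h4) _

theorem dil (L : Lv0) (_h : StmtFA) : StmtDIL := dil0 L

end Pool.Agent.MP_fcd29e_an.H45
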