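import Pool.Agent.MP_fcd29e_an.H31.Spec3
import Pool.Agent.MP_9fca84_an.H66.Param

/-!
A mollifier with support in a cone and vanishing moments.
-/

set_option autoImplicit false

open MeasureTheory Complex Set Filter Topology Metric Pool.Agent.MP_fcd29e_an.H81
  Pool.Agent.MP_fcd29e_an.H31 Pool.Agent.MP_9fca84_an.H66
open scoped ContDiff ComplexConjugate ENNReal NNReal FourierTransform SchwartzMap

namespace Pool.Agent.MP_fcd29e_an.H45

noncomputable section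

variable {N : ℕ}

namespace KER

/-- The coefficients. -/
def cc (M r : ℕ) : ℂ := (-1) ^ r * ((M + 1).choose (r + 1) : ℕ)

theorem cc_sum (M : ℕ) : ∑ r ∈ Finset.range (M + 1), cc M r = 1 := by
  have h := add_pow (-1 : ℂ) 1 (M + 1)
  rw [Finset.sum_range_succ'] at h
  simp only [neg_add_cancel, ne_eq, Nat.add_eq_zero_iff, one_ne_zero, and_false,
    not_false_eq_true, zero_pow, one_pow, mul_one, pow_zero, Nat.choose_zero_right,
    Nat.cast_one] at h
  have e : ∑ r ∈ Finset.range (M + 1), cc M r =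
      -∑ r ∈ Finset.range (M + 1), (-1 : ℂ) ^ (r + 1) * ((M + 1).choose (r + 1) : ℕ) := by
    rw [← Finset.sum_neg_distrib]
    refine Finset.sum_congr rfl fun r _ => ?_
    rw [cc]
    ring
  rw [e]
  linear_combination h

theorem cc_pow (M : ℕ) (ζ : ℂ) :
    ∑ r ∈ Finset.range (M + 1), cc M r * ((r + 1 : ℕ) : ℂ) * ζ ^ (r + 1) =
      (M + 1 : ℕ) * ζ * (1 - ζ) ^ M := by
  have e : (1 - ζ) ^ M = (-ζ + 1) ^ M := by rw [neg_add_eq_sub]
  rw [e, add_pow, Finset.mul_sum]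
  refine Finset.sum_congr rfl fun r _ => ?_
  have h : (((M + 1) * M.choose r : ℕ) : ℂ) = (((M + 1).choose (r + 1) * (r + 1) : ℕ) : ℂ) := by
    rw [Nat.add_one_mul_choose_eq]
  rw [Nat.cast_mul, Nat.cast_mul] at h
  rw [cc, neg_pow ζ]
  linear_combination (-(-1) ^ r * ζ ^ (r + 1)) * h

/-- The mollifier. -/
def PhiM (M : ℕ) (φ : E N → ℂ) (y : E N) : ℂ :=
  ∑ r ∈ Finset.range (M + 1), cc M r * Sc ((r + 1 : ℕ) : ℝ) φ y

/-- The integrand of the potential. -/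
def ff (Φ : E N → ℂ) (p : E N × ℝ) : ℂ := ((p.2 ^ (2 * N) / p.2 : ℝ) : ℂ) * Φ (p.2 • p.1)

/-- The potential. -/
def FF (Φ : E N → ℂ) (y : E N) : ℂ := ∫ u in Icc (1 : ℝ) 2, ff Φ (y, u)

theorem tst_int {g : E N → ℂ} (h : Tst g) : Integrable g :=
  h.1.continuous.integrable_of_hasCompactSupport h.2

theorem tst_mul {l g : E N → ℂ} (hl : ContDiff ℝ ∞ l) (h : Tst g) : Tst fun y => l y * g y :=
  ⟨hl.mul h.1, h.2.mul_left⟩

theorem tst_sum {ι : Type} (s : Finset ι) {g : ι → E N → ℂ} (h : ∀ i ∈ s, Tst (g i)) :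
    Tst fun y => ∑ i ∈ s, g i y := by
  classical
  induction s using Finset.induction_on with
  | empty =>
    simp only [Finset.sum_empty]
    exact ⟨contDiff_const, HasCompactSupport.zero⟩
  | insert a s ha ih =>
    simp only [Finset.sum_insert ha]
    have h1 := h a (Finset.mem_insert_self _ _)
    have h2 := ih fun i hi => h i (Finset.mem_insert_of_mem hi)
    exact ⟨h1.1.add h2.1, h1.2.add h2.2⟩

theorem tst_sc (L : Lv2) {φ : E N → ℂ} (h : Tst φ) {t : ℝ} (ht : 0 < t) : Tst (Sc t φ) :=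
  (L.fa N φ h).2.2.2.2.2.2.1 t ht

theorem tst_phi (L : Lv2) (M : ℕ) {φ : E N → ℂ} (h : Tst φ) : Tst (PhiM M φ) :=
  tst_sum _ fun r _ => tst_mul contDiff_const (tst_sc L h (by positivity))

theorem int_phi (L : Lv2) (M : ℕ) {φ : E N → ℂ} (h : Tst φ) (h1 : ∫ y, φ y = 1) :
    ∫ y, PhiM M φ y = 1 := by
  unfold PhiM
  rw [integral_finsetSum _ fun r _ =>
    tst_int (tst_mul contDiff_const (tst_sc L h (by positivity))), ← cc_sum M]
  refine Finset.sum_congr rfl fun r _ => ?_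
  rw [integral_const_mul, ((L.fb N φ (tst_int h)).2.2.2.1 _ (by positivity)).2.2.1, h1, mul_one]

theorem phi_zero {M : ℕ} {φ : E N → ℂ} {v : E N} {δ : ℝ} (h : ∀ y, δ < ‖y - v‖ → φ y = 0)
    {y : E N} (hy : y ∉ Gam v δ (M + 1)) {u : ℝ} (hu : u ∈ Icc (1 : ℝ) 2) :
    PhiM M φ (u • y) = 0 := by
  refine Finset.sum_eq_zero fun r hr => ?_
  have hr1 : ((r + 1 : ℕ) : ℝ) ≤ M + 1 := by
    have := Finset.mem_range.1 hr
    exact_mod_cast this
  have hr0 : (1 : ℝ) ≤ ((r + 1 : ℕ) : ℝ) := by exact_mod_cast Nat.le_add_left 1 r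
  have hu0 : 0 < u := one_pos.trans_le hu.1
  have hτ : ((r + 1 : ℕ) : ℝ) / u ∈ Icc (1 / 2 : ℝ) (M + 1) := by
    constructor
    · rw [le_div_iff₀ hu0]
      linarith [hu.2]
    · exact (div_le_self (by positivity) hu.1).trans hr1
  have hτ0 : 0 < ((r + 1 : ℕ) : ℝ) / u := by positivity
  have h1 : ((r + 1 : ℕ) : ℝ) / u * δ < ‖y - (((r + 1 : ℕ) : ℝ) / u) • v‖ := by
    by_contra hh
    exact hy ⟨_, hτ, not_lt.1 hh⟩
  have h2 : y - (((r + 1 : ℕ) : ℝ) / u) • v =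
      (((r + 1 : ℕ) : ℝ) / u) • ((((r + 1 : ℕ) : ℝ))⁻¹ • u • y - v) := by
    rw [smul_sub, smul_smul, smul_smul]
    have : ((r + 1 : ℕ) : ℝ) / u * (((r + 1 : ℕ) : ℝ))⁻¹ * u = 1 := by field_simp
    rw [this, one_smul]
  rw [h2, norm_smul, Real.norm_of_nonneg hτ0.le] at h1
  rw [Sc, h _ (lt_of_mul_lt_mul_left h1 hτ0.le), zero_div, mul_zero]

theorem gam_sub {v : E N} {δ T : ℝ} (hδ : 0 < δ) : Gam v δ T ⊆ closedBall 0 (T * (‖v‖ + δ)) := by
  rintro y ⟨τ, hτ, hy⟩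
  have h0 : 0 ≤ τ := le_trans (by norm_num) hτ.1
  rw [mem_closedBall_zero_iff]
  have h1 : ‖y‖ ≤ ‖y - τ • v‖ + ‖τ • v‖ := by
    simpa using norm_add_le (y - τ • v) (τ • v)
  rw [norm_smul, Real.norm_of_nonneg h0] at h1
  have h2 : τ * (‖v‖ + δ) ≤ T * (‖v‖ + δ) := mul_le_mul_of_nonneg_right hτ.2 (by positivity)
  linarith

theorem ff_smooth {Φ : E N → ℂ} (h : ContDiff ℝ ∞ Φ) (y : E N) {u : ℝ} (hu : u ∈ Icc (1 : ℝ) 2) :
    ContDiffAt ℝ ∞ (ff Φ) (y, u) := by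
  have hu0 : u ≠ 0 := (one_pos.trans_le hu.1).ne'
  have h1 : ContDiffAt ℝ ∞ (fun p : E N × ℝ => p.2 ^ (2 * N) / p.2) (y, u) :=
    (contDiffAt_snd.pow _).div contDiffAt_snd hu0
  exact (ofRealCLM.contDiff.contDiffAt.comp _ h1).mul
    (h.contDiffAt.comp _ (contDiffAt_snd.smul contDiffAt_fst))

theorem FF_smooth {Φ : E N → ℂ} (h : ContDiff ℝ ∞ Φ) : ContDiff ℝ ∞ (FF Φ) :=
  contDiffOn_univ.1 (param_smooth isCompact_Icc isOpen_univ fun y _ _ hu => ff_smooth h y hu)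

theorem FF_zero {Φ : E N → ℂ} {y : E N} (h : ∀ u ∈ Icc (1 : ℝ) 2, Φ (u • y) = 0) : FF Φ y = 0 :=
  setIntegral_eq_zero_of_forall_eq_zero fun u hu => by rw [ff, h u hu, mul_zero]

theorem ff_deriv {Φ : E N → ℂ} (h : ContDiff ℝ ∞ Φ) (y : E N) {u : ℝ} (hu : u ∈ Icc (1 : ℝ) 2) :
    (fderiv ℝ (ff Φ) (y, u) ∘L ContinuousLinearMap.inl ℝ (E N) ℝ) y =
      ((u ^ (2 * N) : ℝ) : ℂ) * fderiv ℝ Φ (u • y) y := by
  have hu0 : (u : ℂ) ≠ 0 := ofReal_ne_zero.2 (one_pos.trans_le hu.1).ne'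
  have h1 := slice_hasFDerivAt (ff_smooth h y hu)
  have h2 := (((h.differentiable (by simp)) (u • y)).hasFDerivAt.comp y
    ((hasFDerivAt_id y).const_smul u)).const_mul ((u ^ (2 * N) / u : ℝ) : ℂ)
  rw [h1.unique h2]
  simp only [smul_apply, ContinuousLinearMap.comp_apply,
    ContinuousLinearMap.id_apply, map_smul, smul_eq_mul, real_smul, ofReal_div]
  field_simp

theorem pow_aux (n : ℕ) {u : ℝ} (hu : u ≠ 0) : (n : ℝ) * u ^ (n - 1) = n * (u ^ n / u) := by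
  cases n with
  | zero => simp
  | succ n => rw [Nat.add_sub_cancel, pow_succ, mul_div_cancel_right₀ _ hu]

theorem radial {Φ : E N → ℂ} (h : ContDiff ℝ ∞ Φ) (y : E N) {u : ℝ} (hu : u ∈ Icc (1 : ℝ) 2) :
    HasDerivAt (fun t : ℝ => ((t ^ (2 * N) : ℝ) : ℂ) * Φ (t • y))
      (((2 * N : ℕ) : ℂ) * ff Φ (y, u) +
        (fderiv ℝ (ff Φ) (y, u) ∘L ContinuousLinearMap.inl ℝ (E N) ℝ) y) u := by
  have hu0 : u ≠ 0 := (one_pos.trans_le hu.1).ne'
  have h1 := (hasDerivAt_pow (2 * N) u).ofReal_comp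
  have h2 := ((h.differentiable (by simp)) (u • y)).hasFDerivAt.comp_hasDerivAt u
    ((hasDerivAt_id u).smul_const y)
  rw [pow_aux _ hu0] at h1
  refine (h1.mul h2).congr_deriv ?_
  rw [ff_deriv h y hu, ff, one_smul, ofReal_mul, ofReal_natCast]
  simp only [Function.comp_apply, id_eq]
  ring

theorem FF_euler {Φ : E N → ℂ} (h : ContDiff ℝ ∞ Φ) (y : E N) :
    ((2 * N : ℕ) : ℂ) * FF Φ y + fderiv ℝ (FF Φ) y y = Sc (1 / 2) Φ y - Φ y := by
  have hs : ∀ u ∈ Icc (1 : ℝ) 2, ContDiffAt ℝ ∞ (ff Φ) (y, u) := fun u hu => ff_smooth h y hu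
  have h1 := (param_deriv (μ := volume) isCompact_Icc isOpen_univ
    (fun y _ _ hu => ff_smooth h y hu) (mem_univ y)).fderiv
  have i1 : IntegrableOn (fun u => ff Φ (y, u)) (Icc (1 : ℝ) 2) :=
    slice_integrableOn isCompact_Icc hs
  have i2 : IntegrableOn
      (fun u => fderiv ℝ (ff Φ) (y, u) ∘L ContinuousLinearMap.inl ℝ (E N) ℝ) (Icc (1 : ℝ) 2) :=
    slice_integrableOn isCompact_Icc
      (f := fun w => fderiv ℝ (ff Φ) w ∘L ContinuousLinearMap.inl ℝ (E N) ℝ)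
      fun u hu => slice_contDiffAt (hs u hu)
  have i3 := i2.apply_continuousLinearMap y
  have i4 := (i1.const_mul ((2 * N : ℕ) : ℂ)).add i3
  have h2 : fderiv ℝ (FF Φ) y y = ∫ u in Icc (1 : ℝ) 2,
      (fderiv ℝ (ff Φ) (y, u) ∘L ContinuousLinearMap.inl ℝ (E N) ℝ) y := by
    rw [← ContinuousLinearMap.integral_apply i2, ← h1]
    rfl
  have h12 : (1 : ℝ) ≤ 2 := one_le_two
  have h3 := intervalIntegral.integral_eq_sub_of_hasDerivAt
    (fun u hu => radial h y ((uIcc_of_le h12).subset hu))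
    ((intervalIntegrable_iff_integrableOn_Icc_of_le h12).2 i4)
  rw [intervalIntegral.integral_of_le h12, ← integral_Icc_eq_integral_Ioc,
    integral_add (i1.const_mul _) i3, integral_const_mul] at h3
  rw [h2, FF, h3, Sc]
  simp [mul_comm]

theorem div_eq {F : E N → ℂ} (h : ContDiff ℝ ∞ F) (y : E N) :
    ∑ j, (dz j (fun w : E N => w j * F w) y + dzb j (fun w : E N => conj (w j) * F w) y) =
      ((2 * N : ℕ) : ℂ) * F y + fderiv ℝ F y y := by
  have hF : DifferentiableAt ℝ F y := h.differentiable (by simp) y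
  have hc : ∀ k, DifferentiableAt ℝ (fun w : E N => w k) y := fun k =>
    ContDiffAt.da (contDiff_coord k).contDiffAt
  have e : ∀ j, dz j (fun w : E N => w j * F w) y + dzb j (fun w : E N => conj (w j) * F w) y =
      2 * F y + (y j * dz j F y + conj (y j) * dzb j F y) := by
    intro j
    rw [dz_mul j (hc j) hF, dzb_mul j (differentiableAt_conj (hc j)) hF, dz_coord, dzb_coord_conj,
      if_pos rfl]
    ring
  rw [Finset.sum_congr rfl fun j _ => e j, Finset.sum_add_distrib, ← fderiv_eq]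
  simp only [Finset.sum_const, Finset.card_univ, Fintype.card_fin, nsmul_eq_mul, Nat.cast_mul,
    Nat.cast_ofNat]
  ring

/-- The character. -/
def ch (η y : E N) : ℂ := Real.fourierChar (-inner ℝ y η)

theorem ch_cont (η : E N) : Continuous (ch η) := by
  unfold ch
  fun_prop

theorem ch_norm (η y : E N) : ‖ch η y‖ = 1 := Circle.norm_coe _

theorem ch_nat (η y : E N) (n : ℕ) : ch ((n : ℝ) • η) y = ch η y ^ n := by
  rw [ch, ch, inner_smul_right, ← Circle.coe_pow, ← AddChar.map_nsmul_eq_pow, nsmul_eq_mul,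
    mul_neg]

theorem ch_sub (η y : E N) : ‖1 - ch η y‖ ≤ 2 * Real.pi * ‖y‖ * ‖η‖ := by
  rw [norm_sub_rev, ch, Real.fourierChar_apply, mul_comm _ I]
  refine Real.norm_exp_I_mul_ofReal_sub_one_le.trans ?_
  rw [norm_mul, norm_neg, Real.norm_of_nonneg (by positivity), mul_assoc _ ‖y‖]
  exact mul_le_mul_of_nonneg_left (norm_inner_le_norm y η) (by positivity)

theorem four_eq (g : E N → ℂ) (η : E N) : 𝓕 g η = ∫ y, ch η y * g y := by
  rw [Real.fourier_eq]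
  rfl

theorem ch_int {g : E N → ℂ} (h : Tst g) (η : E N) : Integrable fun y => ch η y * g y :=
  ((ch_cont η).mul h.1.continuous).integrable_of_hasCompactSupport h.2.mul_left

theorem four_sc (L : Lv2) {g : E N → ℂ} (h : Tst g) {t : ℝ} (ht : 0 < t) (η : E N) :
    ∫ y, ch η y * Sc t g y = ∫ y, ch (t • η) y * g y := by
  rw [← four_eq, ← four_eq, ((L.fb N g (tst_int h)).2.2.2.1 t ht).2.2.2 η]

theorem moment (L : Lv2) (M : ℕ) {φ l : E N → ℂ} (h : Tst φ) (hl : ContDiff ℝ ∞ l)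
    (hh : ∀ (t : ℝ) y, l (t • y) = t * l y) :
    ∃ C : ℝ, 0 ≤ C ∧ ∀ η, ‖∫ y, ch η y * (l y * PhiM M φ y)‖ ≤ C * ‖η‖ ^ M := by
  have hg := tst_mul hl h
  have ib : Integrable fun y : E N =>
      ((M + 1 : ℕ) : ℝ) * (2 * Real.pi * ‖y‖) ^ M * ‖l y * φ y‖ := by
    refine Continuous.integrable_of_hasCompactSupport ?_ hg.2.norm.mul_left
    have := hg.1.continuous
    fun_prop
  refine ⟨∫ y : E N, ((M + 1 : ℕ) : ℝ) * (2 * Real.pi * ‖y‖) ^ M * ‖l y * φ y‖,
    integral_nonneg fun y => by positivity, fun η => ?_⟩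
  have e1 : ∀ y, ch η y * (l y * PhiM M φ y) = ∑ r ∈ Finset.range (M + 1),
      cc M r * ((r + 1 : ℕ) : ℂ) * (ch η y * Sc ((r + 1 : ℕ) : ℝ) (fun w => l w * φ w) y) := by
    intro y
    rw [PhiM, Finset.mul_sum, Finset.mul_sum]
    refine Finset.sum_congr rfl fun r _ => ?_
    have hr : ((r + 1 : ℕ) : ℂ) ≠ 0 := Nat.cast_ne_zero.2 (Nat.succ_ne_zero r)
    simp only [Sc]
    rw [hh, ofReal_inv, ofReal_natCast]
    field_simp
  have e2 : ∫ y, ch η y * (l y * PhiM M φ y) =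
      ∫ y, (M + 1 : ℕ) * ch η y * (1 - ch η y) ^ M * (l y * φ y) := by
    simp only [e1]
    rw [integral_finsetSum _ fun r _ =>
      (ch_int (tst_sc L hg (by positivity)) η).const_mul _]
    have e3 : ∀ r ∈ Finset.range (M + 1), ∫ y, cc M r * ((r + 1 : ℕ) : ℂ) *
        (ch η y * Sc ((r + 1 : ℕ) : ℝ) (fun w => l w * φ w) y) =
        ∫ y, cc M r * ((r + 1 : ℕ) : ℂ) * (ch (((r + 1 : ℕ) : ℝ) • η) y * (l y * φ y)) := by
      intro r _
      rw [integral_const_mul, integral_const_mul, four_sc L hg (by positivity)]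
    rw [Finset.sum_congr rfl e3, ← integral_finsetSum _ fun r _ => (ch_int hg _).const_mul _]
    refine integral_congr_ae (Eventually.of_forall fun y => ?_)
    beta_reduce
    rw [← cc_pow, Finset.sum_mul]
    refine Finset.sum_congr rfl fun r _ => ?_
    rw [ch_nat]
    ring
  rw [e2, ← integral_mul_const]
  refine norm_integral_le_of_norm_le (ib.mul_const _) (Eventually.of_forall fun y => ?_)
  rw [norm_mul, norm_mul, norm_mul, ch_norm, norm_pow, Complex.norm_natCast]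
  have h1 : ‖1 - ch η y‖ ^ M ≤ (2 * Real.pi * ‖y‖ * ‖η‖) ^ M :=
    pow_le_pow_left₀ (norm_nonneg _) (ch_sub η y) M
  calc ((M + 1 : ℕ) : ℝ) * 1 * ‖1 - ch η y‖ ^ M * ‖l y * φ y‖
      ≤ ((M + 1 : ℕ) : ℝ) * 1 * (2 * Real.pi * ‖y‖ * ‖η‖) ^ M * ‖l y * φ y‖ := by gcongr
    _ = _ := by rw [mul_pow _ ‖η‖]; ring

theorem four_FF (L : Lv2) {M : ℕ} {Φ l : E N → ℂ} (h : Tst Φ) (hl : ContDiff ℝ ∞ l)
    (hh : ∀ (t : ℝ) y, l (t • y) = t * l y) {R C : ℝ} (hC0 : 0 ≤ C)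
    (hR : ∀ y ∉ closedBall (0 : E N) R, ∀ u ∈ Icc (1 : ℝ) 2, Φ (u • y) = 0)
    (hC : ∀ η, ‖∫ y, ch η y * (l y * Φ y)‖ ≤ C * ‖η‖ ^ M) (η : E N) :
    ‖𝓕 (fun y => l y * FF Φ y) η‖ ≤ C * ‖η‖ ^ M := by
  have hg := tst_mul hl h
  have i1 : IntegrableOn (fun p : E N × ℝ => ch η p.1 * (l p.1 * ff Φ p))
      (closedBall (0 : E N) R ×ˢ Icc (1 : ℝ) 2) (volume.prod volume) := by
    refine ContinuousOn.integrableOn_compact ((isCompact_closedBall _ _).prod isCompact_Icc)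
      fun p hp => ContinuousAt.continuousWithinAt ?_
    exact ((ch_cont η).comp continuous_fst).continuousAt.mul
      ((hl.continuous.comp continuous_fst).continuousAt.mul (ff_smooth h.1 p.1 hp.2).continuousAt)
  have i2 : IntegrableOn (fun p : E N × ℝ => ch η p.1 * (l p.1 * ff Φ p))
      (univ ×ˢ Icc (1 : ℝ) 2) (volume.prod volume) := by
    refine i1.of_forall_sdiff_eq_zero (MeasurableSet.univ.prod measurableSet_Icc) fun p hp => ?_
    rw [ff, hR p.1 (fun hb => hp.2 ⟨hb, hp.1.2⟩) p.2 hp.1.2, mul_zero, mul_zero, mul_zero]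
  have i3 : Integrable (Function.uncurry fun (y : E N) (u : ℝ) => ch η y * (l y * ff Φ (y, u)))
      (volume.prod (volume.restrict (Icc (1 : ℝ) 2))) := by
    rw [IntegrableOn, ← Measure.prod_restrict, Measure.restrict_univ] at i2
    exact i2
  have e1 : 𝓕 (fun y => l y * FF Φ y) η =
      ∫ u in Icc (1 : ℝ) 2, ∫ y, ch η y * (l y * ff Φ (y, u)) := by
    rw [four_eq, ← integral_integral_swap i3]
    refine integral_congr_ae (Eventually.of_forall fun y => ?_)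
    beta_reduce
    rw [integral_const_mul, integral_const_mul, FF]
  have e2 : ∀ u ∈ Icc (1 : ℝ) 2, ‖∫ y, ch η y * (l y * ff Φ (y, u))‖ ≤ C * ‖η‖ ^ M := by
    intro u hu
    have hu0 : 0 < u := one_pos.trans_le hu.1
    have hu1 : (u : ℂ) ≠ 0 := ofReal_ne_zero.2 hu0.ne'
    have hi : u⁻¹ ≤ 1 := inv_le_one_of_one_le₀ hu.1
    have e3 : ∀ y, ch η y * (l y * ff Φ (y, u)) =
        ((u⁻¹ * u⁻¹ : ℝ) : ℂ) * (ch η y * Sc u⁻¹ (fun w => l w * Φ w) y) := by
      intro y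
      simp only [Sc, ff, inv_inv]
      rw [hh]
      push_cast
      rw [inv_pow]
      field_simp
    simp only [e3]
    rw [integral_const_mul, four_sc L hg (inv_pos.2 hu0), norm_mul, Complex.norm_real,
      Real.norm_of_nonneg (by positivity)]
    have h1 := hC (u⁻¹ • η)
    have h2 : ‖u⁻¹ • η‖ ≤ ‖η‖ := by
      rw [norm_smul, Real.norm_of_nonneg (by positivity)]
      exact mul_le_of_le_one_left (norm_nonneg _) hi
    have h3 : C * ‖u⁻¹ • η‖ ^ M ≤ C * ‖η‖ ^ M := by gcongr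
    refine (mul_le_of_le_one_left (norm_nonneg _) ?_).trans (h1.trans h3)
    exact mul_le_one₀ hi (by positivity) hi
  rw [e1]
  refine (norm_setIntegral_le_of_norm_le_const isCompact_Icc.measure_lt_top e2).trans_eq ?_
  rw [Real.volume_real_Icc_of_le one_le_two]
  norm_num

theorem bump (v : E N) {δ : ℝ} (hδ : 0 < δ) :
    ∃ φ : E N → ℂ, Tst φ ∧ ∫ y, φ y = 1 ∧ ∀ y, δ < ‖y - v‖ → φ y = 0 := by
  let b : ContDiffBump v := ⟨δ / 2, δ, half_pos hδ, half_lt_self hδ⟩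
  refine ⟨fun y => (b.normed volume y : ℝ), ⟨ofRealCLM.contDiff.comp b.contDiff_normed,
    b.hasCompactSupport_normed.comp_left ofReal_zero⟩, ?_, fun y hy => ?_⟩
  · rw [integral_complex_ofReal, b.integral_normed, ofReal_one]
  · have : y ∉ Function.support (b.normed volume) := by
      rw [b.support_normed_eq, mem_ball, dist_eq_norm]
      exact not_lt.2 hy.le
    beta_reduce
    rw [Function.notMem_support.1 this, ofReal_zero]

end KER

open KER in
theorem ker (L : Lv2) : StmtKER := by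
  intro N v δ hδ M
  obtain ⟨φ, hφ, h1, h0⟩ := bump v hδ
  have hΦ := tst_phi L M hφ
  have hz : ∀ y ∉ Gam v δ (M + 1), ∀ u ∈ Icc (1 : ℝ) 2, PhiM M φ (u • y) = 0 :=
    fun y hy u hu => phi_zero h0 hy hu
  have hR : ∀ y ∉ closedBall (0 : E N) ((M + 1) * (‖v‖ + δ)), ∀ u ∈ Icc (1 : ℝ) 2,
      PhiM M φ (u • y) = 0 := fun y hy => hz y fun hg => hy (gam_sub hδ hg)
  have hF : Tst (FF (PhiM M φ)) := ⟨FF_smooth hΦ.1,
    HasCompactSupport.intro (isCompact_closedBall _ _) fun y hy => FF_zero (hR y hy)⟩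
  refine ⟨PhiM M φ, fun j y => y j * FF (PhiM M φ) y, fun j y => conj (y j) * FF (PhiM M φ) y,
    hΦ, int_phi L M hφ h1, fun y hy => ?_, fun j => ?_, fun y => ?_⟩
  · simpa using hz y hy 1 ⟨le_rfl, one_le_two⟩
  · have c1 : ContDiff ℝ ∞ fun y : E N => y j := contDiff_coord j
    have c2 : ContDiff ℝ ∞ fun y : E N => conj (y j) := conjCLE.contDiff.comp c1
    have s1 : ∀ (t : ℝ) (y : E N), (t • y) j = t * y j := fun t y => rfl
    have s2 : ∀ (t : ℝ) (y : E N), conj ((t • y) j) = t * conj (y j) := fun t y => by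
      rw [s1, map_mul, conj_ofReal]
    obtain ⟨C1, p1, b1⟩ := moment L M hφ c1 s1
    obtain ⟨C2, p2, b2⟩ := moment L M hφ c2 s2
    refine ⟨tst_mul c1 hF, tst_mul c2 hF, fun y hy => ?_, C1 + C2, fun η => ⟨?_, ?_⟩⟩
    · beta_reduce
      rw [FF_zero (hz y hy), mul_zero, mul_zero]
      exact ⟨rfl, rfl⟩
    · refine (four_FF L hΦ c1 s1 p1 hR b1 η).trans ?_
      exact mul_le_mul_of_nonneg_right (le_add_of_nonneg_right p2) (by positivity)
    · refine (four_FF L hΦ c2 s2 p2 hR b2 η).trans ?_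
      exact mul_le_mul_of_nonneg_right (le_add_of_nonneg_left p1) (by positivity)
  · rw [div_eq hF.1, FF_euler hΦ.1]

end

end Pool.Agent.MP_fcd29e_an.H45
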