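import Pool.Agent.MP_fcd29e_an.H81.Spec

/-!
Schur's test for the kernel `(|x - y| + ρ y)^{-2N}`.
-/

set_option autoImplicit false

open Pool.Agent.MP_fcd29e_an.H81 MeasureTheory Complex Set Filter Topology Metric
open scoped ContDiff ComplexConjugate ENNReal NNReal

namespace Pool.Agent.MP_fcd29e_an.H45

theorem cs_sq {Y : Type*} [MeasurableSpace Y] {ν : Measure Y} {F G H : Y → ℝ≥0∞}
    (hF : AEMeasurable F ν) (hG : AEMeasurable G ν) (h : ∀ᵐ y ∂ν, H y ^ 2 = F y * G y) :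
    (∫⁻ y, H y ∂ν) ^ 2 ≤ (∫⁻ y, F y ∂ν) * ∫⁻ y, G y ∂ν := by
  have h1 := ENNReal.lintegral_mul_norm_pow_le hF hG (p := 1 / 2) (q := 1 / 2) (by norm_num)
    (by norm_num) (by norm_num)
  have h2 : ∫⁻ y, H y ∂ν = ∫⁻ y, F y ^ (1 / 2 : ℝ) * G y ^ (1 / 2 : ℝ) ∂ν := by
    refine lintegral_congr_ae (h.mono fun y hy => ?_)
    beta_reduce
    rw [← ENNReal.mul_rpow_of_nonneg _ _ (by norm_num), ← hy, ← ENNReal.rpow_natCast,
      ← ENNReal.rpow_mul]
    norm_num
  rw [← h2, ← ENNReal.mul_rpow_of_nonneg _ _ (by norm_num)] at h1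
  refine (pow_le_pow_left' h1 2).trans_eq ?_
  rw [← ENNReal.rpow_natCast, ← ENNReal.rpow_mul]
  norm_num

theorem schur {X Y : Type*} [MeasurableSpace X] [MeasurableSpace Y] {μ : Measure X}
    {ν : Measure Y} [SFinite μ] [SFinite ν] {k : X → Y → ℝ≥0∞}
    (hk : Measurable (Function.uncurry k)) {a : X → ℝ≥0∞} {b : Y → ℝ≥0∞} (ha : Measurable a)
    (ha' : ∀ x, a x ≠ ⊤) (hb : Measurable b) (hb' : ∀ᵐ y ∂ν, b y ≠ 0 ∧ b y ≠ ⊤) {A B : ℝ≥0}
    (hA : ∀ᵐ x ∂μ, ∫⁻ y, k x y * b y ∂ν ≤ A * a x) (hB : ∀ᵐ y ∂ν, ∫⁻ x, k x y * a x ∂μ ≤ B * b y)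
    {g : Y → ℝ≥0∞} (hg : AEMeasurable g ν) :
    ∫⁻ x, (∫⁻ y, k x y * g y ∂ν) ^ 2 ∂μ ≤ (A * B : ℝ≥0) * ∫⁻ y, g y ^ 2 ∂ν := by
  have hw : AEMeasurable (fun y => g y ^ 2 * (b y)⁻¹) ν := (hg.pow_const 2).mul hb.inv.aemeasurable
  have hkx : ∀ x, Measurable (k x) := fun x => hk.of_uncurry_left
  have hky : ∀ y, Measurable fun x => k x y := fun y => hk.of_uncurry_right
  calc ∫⁻ x, (∫⁻ y, k x y * g y ∂ν) ^ 2 ∂μ
      ≤ ∫⁻ x, A * ∫⁻ y, k x y * a x * (g y ^ 2 * (b y)⁻¹) ∂ν ∂μ := by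
        refine lintegral_mono_ae (hA.mono fun x hx => ?_)
        have h1 := cs_sq (H := fun y => k x y * g y) ((hkx x).mul hb).aemeasurable
          ((hkx x).aemeasurable.mul hw) (hb'.mono fun y hy => by
            have := ENNReal.mul_inv_cancel hy.1 hy.2
            calc (k x y * g y) ^ 2 = (k x y * g y) ^ 2 * (b y * (b y)⁻¹) := by rw [this, mul_one]
              _ = _ := by simp only [Pi.mul_apply]; ring)
        refine h1.trans ((mul_le_mul_left hx _).trans_eq ?_)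
        rw [mul_assoc, ← lintegral_const_mul' _ _ (ha' x)]
        refine congrArg _ (lintegral_congr fun y => ?_)
        simp only [Pi.mul_apply]
        ring
    _ = A * ∫⁻ y, (∫⁻ x, k x y * a x ∂μ) * (g y ^ 2 * (b y)⁻¹) ∂ν := by
        have hs : AEMeasurable (fun p : X × Y => k p.1 p.2 * a p.1 * (g p.2 ^ 2 * (b p.2)⁻¹))
            (μ.prod ν) := (hk.mul (ha.comp measurable_fst)).aemeasurable.mul hw.comp_snd
        rw [lintegral_const_mul' _ _ ENNReal.coe_ne_top, lintegral_lintegral_swap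
          (f := fun x y => k x y * a x * (g y ^ 2 * (b y)⁻¹)) hs]
        refine congrArg _ (lintegral_congr fun y => ?_)
        exact lintegral_mul_const _ ((hky y).mul ha)
    _ ≤ A * ∫⁻ y, B * g y ^ 2 ∂ν := by
        refine mul_le_mul_right (lintegral_mono_ae ?_) _
        filter_upwards [hB, hb'] with y hy hy'
        refine (mul_le_mul_left hy _).trans_eq ?_
        calc B * b y * (g y ^ 2 * (b y)⁻¹) = B * g y ^ 2 * (b y * (b y)⁻¹) := by ring
          _ = _ := by rw [ENNReal.mul_inv_cancel hy'.1 hy'.2, mul_one]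
    _ = _ := by rw [lintegral_const_mul' _ _ ENNReal.coe_ne_top, ENNReal.coe_mul, mul_assoc]

theorem sch (L : Lv0) : StmtSCH := by
  intro N ρ hρ K hK hK0
  obtain ⟨-, hOp, -, -, hm, ⟨B, hB⟩, -, hKK, -⟩ := L.c1 N ρ hρ
  obtain ⟨⟨M, hM⟩, -⟩ := hKK K hK hK0
  obtain ⟨hae, hC⟩ := L.c2 N ρ hρ
  obtain ⟨C, hC⟩ := hC K B hK hK0
  have hms : MeasurableSet (Op ρ ∩ K) := hOp.measurableSet.inter hK.measurableSet
  have hh : Measurable fun z => ENNReal.ofReal (√|ρ z|)⁻¹ := by fun_prop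
  refine ⟨⟨(1 + |M|) ^ (2 * N), by positivity⟩ * C * C, fun g hg => ?_⟩
  refine schur (k := fun x y => ENNReal.ofReal ((‖x - y‖ + ρ y) ^ (2 * N))⁻¹) ?_ hh
    (fun _ => ENNReal.ofReal_ne_top) hh (ae_restrict_of_forall_mem hms fun y hy => ⟨?_,
      ENNReal.ofReal_ne_top⟩) ?_ (ae_restrict_of_forall_mem hms fun y hy => ?_) hg
  · have h2 : Measurable fun p : E N × E N => ρ p.2 := hm.comp measurable_snd
    have h1 : Measurable fun p : E N × E N => ‖p.1 - p.2‖ :=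
      (continuous_fst.sub continuous_snd).norm.measurable
    exact ((h1.add h2).pow_const _).inv.ennreal_ofReal
  · have := abs_pos.2 hy.1.2.ne'
    exact (ENNReal.ofReal_pos.2 (by positivity)).ne'
  · filter_upwards [ae_restrict_mem hK.measurableSet, ae_restrict_of_ae hae] with x hx hx0
    have hδ := abs_pos.2 hx0
    have h1 := hC x hx |ρ x| hδ (hB x)
    rw [ENNReal.coe_mul, mul_assoc]
    refine le_trans ?_ (mul_le_mul_right h1 _)
    rw [← lintegral_const_mul' _ _ ENNReal.coe_ne_top]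
    refine le_trans (setLIntegral_mono' hms fun y hy => ?_) (lintegral_mono_set inter_subset_right)
    have hy0 : 0 < ρ y := hy.1.2
    have h2 : ‖y - x‖ + |ρ x| ≤ (1 + |M|) * (‖x - y‖ + ρ y) := by
      have h3 := hM y hy.2 x hx
      have h4 : |ρ x| ≤ |ρ x - ρ y| + ρ y := by
        have := abs_add_le (ρ x - ρ y) (ρ y)
        rwa [sub_add_cancel, abs_of_pos hy0] at this
      have h5 : M * ‖x - y‖ ≤ |M| * ‖x - y‖ :=
        mul_le_mul_of_nonneg_right (le_abs_self M) (norm_nonneg _)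
      have h6 : 0 ≤ |M| * ρ y := by positivity
      rw [norm_sub_rev y x]
      nlinarith
    have h3 : ((‖x - y‖ + ρ y) ^ (2 * N))⁻¹ ≤
        (1 + |M|) ^ (2 * N) * ((‖y - x‖ + |ρ x|) ^ (2 * N))⁻¹ := by
      rw [← div_eq_mul_inv, inv_eq_one_div, div_le_div_iff₀ (by positivity) (by positivity),
        one_mul, ← mul_pow]
      exact pow_le_pow_left₀ (by positivity) h2 _
    rw [← ENNReal.ofReal_mul (by positivity), ← ENNReal.ofReal_coe_nnreal,
      ← ENNReal.ofReal_mul (by positivity)]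
    refine ENNReal.ofReal_le_ofReal ?_
    rw [← mul_assoc]
    exact mul_le_mul_of_nonneg_right h3 (by positivity)
  · have hy0 : 0 < ρ y := hy.1.2
    have h1 := hC y hy.2 (ρ y) hy0 ((le_abs_self _).trans (hB y))
    rw [abs_of_pos hy0]
    refine le_trans (le_of_eq (lintegral_congr fun x => ?_)) h1
    rw [ENNReal.ofReal_mul (by positivity)]

end Pool.Agent.MP_fcd29e_an.H45
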