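import Pool.Agent.MP_fcd29e_an.H81.Spec

/-!
Square integrable functions, test functions and weak derivatives.
-/

set_option autoImplicit false

open Pool.Agent.MP_fcd29e_an.H81 MeasureTheory Complex Set Filter Topology Metric
open scoped ContDiff ComplexConjugate ENNReal NNReal

namespace Pool.Agent.MP_fcd29e_an.H45

variable {N : ℕ} {U : Set (E N)}

theorem fin_restrict (U : Set (E N)) {K : Set (E N)} (hK : IsCompact K) :
    IsFiniteMeasure ((volume : Measure (E N)).restrict (U ∩ K)) :=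
  isFiniteMeasure_restrict.2 ((measure_mono inter_subset_right).trans_lt hK.measure_lt_top).ne

theorem l2_loc (hU : IsOpen U) (h0 : (0 : E N) ∉ U) {f : E N → ℂ} (hf : L2 U f) :
    LocallyIntegrableOn f U := by
  refine (locallyIntegrableOn_iff hU.isLocallyClosed).2 fun K hKU hK => ?_
  have h := hf K hK fun h => h0 (hKU h)
  have := fin_restrict U hK
  have h1 := h.integrable (by norm_num)
  rwa [inter_eq_right.2 hKU] at h1

theorem loc_int {f ψ : E N → ℂ} (hf : LocallyIntegrableOn f U) (hc : Continuous ψ)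
    (hs : HasCompactSupport ψ) (hU : tsupport ψ ⊆ U) : Integrable fun z => f z * ψ z := by
  have h := (hf.integrableOn_compact_subset hU hs).mul_continuousOn hc.continuousOn hs
  refine (integrableOn_iff_integrable_of_support_subset fun z hz => ?_).1 h
  exact subset_tsupport _ (right_ne_zero_of_mul hz)

theorem set_int {f ψ : E N → ℂ} (hU : tsupport ψ ⊆ U) :
    ∫ z in U, f z * ψ z = ∫ z, f z * ψ z :=
  setIntegral_eq_integral_of_forall_compl_eq_zero fun z hz => by
    rw [image_eq_zero_of_notMem_tsupport fun h => hz (hU h), mul_zero]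

theorem loc_test {f ψ : E N → ℂ} (hf : LocallyIntegrableOn f U) (hψ : Test U ψ) :
    IntegrableOn (fun z => f z * ψ z) U :=
  (loc_int hf hψ.1.continuous hψ.2.1 hψ.2.2).integrableOn

theorem l2_mul (hU : IsOpen U) {f s : E N → ℂ} (hf : L2 U f) (hs : ContinuousOn s (E0 N)) :
    L2 U fun z => s z * f z := by
  intro K hK hK0
  have hKE : K ⊆ E0 N := fun z hz h => hK0 (mem_singleton_iff.1 h ▸ hz)
  obtain ⟨C, hC⟩ := hK.exists_bound_of_continuousOn (hs.mono hKE)
  have hm : MeasurableSet (U ∩ K) := hU.measurableSet.inter hK.measurableSet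
  refine (hf K hK hK0).of_le_mul (c := C)
    (((hs.mono (inter_subset_right.trans hKE)).aestronglyMeasurable hm).mul (hf K hK hK0).1)
    (ae_restrict_of_forall_mem hm fun z hz => ?_)
  rw [norm_mul]
  exact mul_le_mul_of_nonneg_right (hC z hz.2) (norm_nonneg _)

theorem l2_cont (hU : IsOpen U) {f : E N → ℂ} (hf : ContinuousOn f (E0 N)) : L2 U f := by
  intro K hK hK0
  have hKE : K ⊆ E0 N := fun z hz h => hK0 (mem_singleton_iff.1 h ▸ hz)
  obtain ⟨C, hC⟩ := hK.exists_bound_of_continuousOn (hf.mono hKE)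
  have hm : MeasurableSet (U ∩ K) := hU.measurableSet.inter hK.measurableSet
  have := fin_restrict U hK
  exact MemLp.of_bound ((hf.mono (inter_subset_right.trans hKE)).aestronglyMeasurable hm) C
    (ae_restrict_of_forall_mem hm fun z hz => hC z hz.2)

theorem l2_congr (hU : IsOpen U) {f g : E N → ℂ} (hf : L2 U f) (h : ∀ᵐ z, z ∈ U → f z = g z) :
    L2 U g := by
  intro K hK hK0
  have hm : MeasurableSet (U ∩ K) := hU.measurableSet.inter hK.measurableSet
  exact (hf K hK hK0).ae_eq ((ae_restrict_iff' hm).2 (h.mono fun z hz hz' => hz hz'.1))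

theorem test_of {ψ g : E N → ℂ} (hψ : Test U ψ) (hg : ContDiff ℝ ∞ g)
    (h : ∀ z, z ∉ tsupport ψ → g z = 0) : Test U g := by
  have hs : tsupport g ⊆ tsupport ψ :=
    closure_minimal (fun z hz => by_contra fun hn => hz (h z hn)) (isClosed_tsupport ψ)
  exact ⟨hg, hψ.2.1.of_isClosed_subset (isClosed_tsupport g) hs, hs.trans hψ.2.2⟩

theorem test_mul (hU : IsOpen U) {ψ s : E N → ℂ} (hψ : Test U ψ) (hs : ContDiffOn ℝ ∞ s U) :
    Test U fun z => s z * ψ z := by
  refine test_of hψ (contDiff_iff_contDiffAt.2 fun z => ?_) fun z hz => by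
    rw [image_eq_zero_of_notMem_tsupport hz, mul_zero]
  by_cases hz : z ∈ tsupport ψ
  · exact (hs.contDiffAt (hU.mem_nhds (hψ.2.2 hz))).mul hψ.1.contDiffAt
  · refine (contDiffAt_const (c := (0 : ℂ))).congr_of_eventuallyEq ?_
    filter_upwards [(isClosed_tsupport ψ).isOpen_compl.mem_nhds hz] with w hw
    rw [image_eq_zero_of_notMem_tsupport hw, mul_zero]

theorem test_add {ψ χ : E N → ℂ} (hψ : Test U ψ) (hχ : Test U χ) : Test U fun z => ψ z + χ z :=
  ⟨hψ.1.add hχ.1, hψ.2.1.add hχ.2.1,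
    (tsupport_add ψ χ).trans (union_subset hψ.2.2 hχ.2.2)⟩

/-- First-order operators with constant coefficients. -/
structure Der (D : (E N → ℂ) → E N → ℂ) : Prop where
  mul : ∀ f g z, DifferentiableAt ℝ f z → DifferentiableAt ℝ g z →
    D (fun w => f w * g w) z = D f z * g z + f z * D g z
  cd : ∀ f z, ContDiffAt ℝ ∞ f z → ContDiffAt ℝ ∞ (D f) z
  zero : ∀ ψ z, z ∉ tsupport ψ → D ψ z = 0
  int : ∀ ψ, Test univ ψ → ∫ z, D ψ z = 0

theorem int_fderiv {ψ : E N → ℂ} (hψ : Test univ ψ) (v : E N) :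
    Integrable fun z => fderiv ℝ ψ z v :=
  (contDiff_iff_contDiffAt.2 fun _ =>
    contDiffAt_fderiv_apply hψ.1.contDiffAt v).continuous.integrable_of_hasCompactSupport
      (hψ.2.1.fderiv_apply ℝ v)

theorem der_fderiv (v : E N) : Der fun f z => fderiv ℝ f z v where
  mul f g z hf hg := by
    simp only [fderiv_fun_mul hf hg, ContinuousLinearMap.add_apply,
      ContinuousLinearMap.smul_apply, smul_eq_mul]
    ring
  cd f z hf := contDiffAt_fderiv_apply hf v
  zero ψ z hz := by simp [fderiv_of_notMem_tsupport ℝ hz]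
  int ψ hψ := by
    have h := integral_mul_fderiv_eq_neg_fderiv_mul_of_integrable (μ := volume)
      (f := fun _ : E N => (1 : ℂ)) (g := ψ) (v := v) (by simp) (by simpa using int_fderiv hψ v)
      (by simpa using hψ.1.continuous.integrable_of_hasCompactSupport hψ.2.1)
      (fun _ _ => differentiableAt_const _) fun _ _ => ContDiffAt.da hψ.1.contDiffAt
    simpa using h

theorem der_dz (j : Fin N) : Der (dz j) where
  mul _ _ _ hf hg := dz_mul j hf hg
  cd _ _ hf := contDiffAt_dz j hf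
  zero ψ z hz := by simp [dz, fderiv_of_notMem_tsupport ℝ hz]
  int ψ hψ := by
    simp only [dz]
    rw [integral_div, integral_sub (int_fderiv hψ _) ((int_fderiv hψ _).const_mul I),
      integral_const_mul, (der_fderiv _).int ψ hψ, (der_fderiv _).int ψ hψ]
    simp

theorem der_dzb (j : Fin N) : Der (dzb j) where
  mul _ _ _ hf hg := dzb_mul j hf hg
  cd _ _ hf := contDiffAt_dzb j hf
  zero ψ z hz := by simp [dzb, fderiv_of_notMem_tsupport ℝ hz]
  int ψ hψ := by
    simp only [dzb]
    rw [integral_div, integral_add (int_fderiv hψ _) ((int_fderiv hψ _).const_mul I),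
      integral_const_mul, (der_fderiv _).int ψ hψ, (der_fderiv _).int ψ hψ]
    simp

variable {D : (E N → ℂ) → E N → ℂ}

theorem Der.test (hD : Der D) {ψ : E N → ℂ} (hψ : Test U ψ) : Test U (D ψ) :=
  test_of hψ (contDiff_iff_contDiffAt.2 fun z => hD.cd ψ z hψ.1.contDiffAt) (hD.zero ψ)

theorem Der.cdOn (hD : Der D) (hU : IsOpen U) {f : E N → ℂ} (hf : ContDiffOn ℝ ∞ f U) :
    ContDiffOn ℝ ∞ (D f) U := fun z hz =>
  (hD.cd f z (hf.contDiffAt (hU.mem_nhds hz))).contDiffWithinAt

theorem Der.parts (hD : Der D) (hU : IsOpen U) {f ψ : E N → ℂ} (hf : ContDiffOn ℝ ∞ f U)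
    (hψ : Test U ψ) : ∫ z in U, f z * D ψ z = -∫ z in U, D f z * ψ z := by
  have h1 := test_mul hU hψ hf
  have h2 := hD.int _ ⟨h1.1, h1.2.1, subset_univ _⟩
  rw [← setIntegral_eq_integral_of_forall_compl_eq_zero (s := U)
    fun z hz => hD.zero _ z fun h => hz (h1.2.2 h)] at h2
  have hl : ∀ g : E N → ℂ, ContDiffOn ℝ ∞ g U → LocallyIntegrableOn g U := fun g hg =>
    hg.continuousOn.locallyIntegrableOn hU.measurableSet
  rw [setIntegral_congr_fun hU.measurableSet (g := fun z => D f z * ψ z + f z * D ψ z)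
    fun z hz => hD.mul f ψ z (ContDiffAt.da (hf.contDiffAt (hU.mem_nhds hz)))
      (ContDiffAt.da hψ.1.contDiffAt),
    integral_add (loc_test (hl _ (hD.cdOn hU hf)) hψ) (loc_test (hl _ hf) (hD.test hψ))] at h2
  linear_combination h2

theorem Der.prod (hD : Der D) (hU : IsOpen U) {f g s : E N → ℂ} (hf : LocallyIntegrableOn f U)
    (hg : LocallyIntegrableOn g U) (hs : ContDiffOn ℝ ∞ s U)
    (h : ∀ ψ, Test U ψ → ∫ z in U, f z * D ψ z = -∫ z in U, g z * ψ z) (ψ : E N → ℂ)
    (hψ : Test U ψ) :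
    ∫ z in U, s z * f z * D ψ z = -∫ z in U, (s z * g z + D s z * f z) * ψ z := by
  have h1 := test_mul hU hψ hs
  have h2 := test_mul hU hψ (hD.cdOn hU hs)
  have h3 := test_mul hU (hD.test hψ) hs
  have h4 := h _ h1
  rw [setIntegral_congr_fun hU.measurableSet
    (g := fun z => f z * (D s z * ψ z) + f z * (s z * D ψ z)) fun z hz => by
      beta_reduce
      rw [hD.mul s ψ z (ContDiffAt.da (hs.contDiffAt (hU.mem_nhds hz)))
        (ContDiffAt.da hψ.1.contDiffAt), mul_add],
    integral_add (loc_test hf h2) (loc_test hf h3)] at h4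
  have e1 : ∫ z in U, s z * f z * D ψ z = ∫ z in U, f z * (s z * D ψ z) :=
    integral_congr_ae (Eventually.of_forall fun z => by ring)
  have e2 : ∫ z in U, (s z * g z + D s z * f z) * ψ z =
      (∫ z in U, g z * (s z * ψ z)) + ∫ z in U, f z * (D s z * ψ z) := by
    rw [← integral_add (loc_test hg h1) (loc_test hf h2)]
    exact integral_congr_ae (Eventually.of_forall fun z => by ring)
  rw [e1, e2]
  linear_combination h4

theorem uniq (hU : IsOpen U) {g : E N → ℂ} (hg : LocallyIntegrableOn g U)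
    (h : ∀ ψ, Test U ψ → ∫ z in U, g z * ψ z = 0) : ∀ᵐ z, z ∈ U → g z = 0 := by
  refine hU.ae_eq_zero_of_integral_contDiff_smul_eq_zero hg fun φ hφ hc hs => ?_
  have hs' : tsupport (fun z => (φ z : ℂ)) ⊆ tsupport φ :=
    closure_mono fun z hz h0 => hz (by simp [h0])
  have ht : Test U fun z => (φ z : ℂ) :=
    ⟨ofRealCLM.contDiff.comp hφ, hc.of_isClosed_subset (isClosed_tsupport _) hs', hs'.trans hs⟩
  rw [← h _ ht, set_int ht.2.2]
  exact integral_congr_ae (Eventually.of_forall fun z => by simp [mul_comm])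

theorem t1 : StmtT1 := by
  intro N U hU h0
  have hE : U ⊆ E0 N := fun z hz h => h0 (mem_singleton_iff.1 h ▸ hz)
  have hl : ∀ {f : E N → ℂ}, L2 U f → LocallyIntegrableOn f U := fun hf => l2_loc hU h0 hf
  refine ⟨fun f hf => ⟨hl hf, (hl hf).aestronglyMeasurable,
      fun ψ hc hs hψ => ⟨loc_int (hl hf) hc hs hψ, set_int hψ⟩,
      fun g hg => ⟨fun K hK hK0 => (hf K hK hK0).add (hg K hK hK0),
        fun K hK hK0 => (hf K hK hK0).sub (hg K hK hK0)⟩,
      fun s hs => l2_mul hU hf hs, fun g h => l2_congr hU hf h,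
      fun V hV K hK hK0 => (hf K hK hK0).mono_measure
        (Measure.restrict_mono (inter_subset_inter_left K hV) le_rfl)⟩,
    fun ι s F hF K hK hK0 => memLp_finsetSum s fun i hi => hF i hi K hK hK0,
    fun f hf => l2_cont hU hf,
    fun ψ hψ => ⟨fun s hs => test_mul hU hψ hs, fun v => (der_fderiv v).test hψ,
      fun j => ⟨(der_dz j).test hψ, (der_dzb j).test hψ⟩,
      test_of hψ (contDiff_iff_contDiffAt.2 fun z => contDiffAt_conj hψ.1.contDiffAt)
        fun z hz => by rw [image_eq_zero_of_notMem_tsupport hz, map_zero],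
      fun χ hχ => test_add hψ hχ, fun V hV => ⟨hψ.1, hψ.2.1, hψ.2.2.trans hV⟩⟩,
    fun g hg h => uniq hU hg h,
    fun f hf => ⟨fun v ψ hψ => (der_fderiv v).parts hU hf hψ,
      fun j => ⟨fun ψ hψ => (der_dzb j).parts hU hf hψ, fun ψ hψ => (der_dz j).parts hU hf hψ⟩⟩,
    fun f g hf hg s hs => ⟨fun v h => (der_fderiv v).prod hU (hl hf) (hl hg) (hs.mono hE) h,
      fun j h => (der_dzb j).prod hU (hl hf) (hl hg) (hs.mono hE) h⟩,
    fun v f g f' g' hf hg hf' hg' h h' ψ hψ => ?_, fun v f g f' g' h hf hg ψ hψ => ?_,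
    fun v f g g' hg hg' h h' => ?_, fun v f g V hV hVU h ψ hψ => ?_,
    fun j f g₁ g₂ hf h1 h2 h h' ψ hψ => ?_⟩
  · have ht := (der_fderiv v).test hψ
    simp only [add_mul]
    rw [integral_add (loc_test (hl hf) ht) (loc_test (hl hf') ht),
      integral_add (loc_test (hl hg) hψ) (loc_test (hl hg') hψ), h ψ hψ, h' ψ hψ]
    ring
  · have e1 : ∫ z in U, f' z * fderiv ℝ ψ z v = ∫ z in U, f z * fderiv ℝ ψ z v :=
      setIntegral_congr_ae hU.measurableSet (hf.mono fun z hz hz' => by rw [hz hz'])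
    have e2 : ∫ z in U, g' z * ψ z = ∫ z in U, g z * ψ z :=
      setIntegral_congr_ae hU.measurableSet (hg.mono fun z hz hz' => by rw [hz hz'])
    rw [e1, e2, h ψ hψ]
  · have := uniq hU (g := fun z => g z - g' z) ((hl hg).sub (hl hg')) fun ψ hψ => by
      simp only [sub_mul]
      rw [integral_sub (loc_test (hl hg) hψ) (loc_test (hl hg') hψ)]
      linear_combination h ψ hψ - h' ψ hψ
    exact this.mono fun z hz hz' => sub_eq_zero.1 (hz hz')
  · have ht := ((der_fderiv v).test hψ).2.2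
    have h3 := h ψ ⟨hψ.1, hψ.2.1, hψ.2.2.trans hVU⟩
    rw [set_int (ht.trans hVU), set_int (hψ.2.2.trans hVU)] at h3
    rw [set_int ht, set_int hψ.2.2, h3]
  · have e1 : ∫ z in U, f z * dzb j ψ z = ((∫ z in U, f z * fderiv ℝ ψ z (ee j)) +
        I * ∫ z in U, f z * fderiv ℝ ψ z (I • ee j)) / 2 := by
      rw [← integral_const_mul, ← integral_add (loc_test (hl hf) ((der_fderiv _).test hψ))
        ((loc_test (hl hf) ((der_fderiv _).test hψ)).const_mul I), ← integral_div]
      exact integral_congr_ae (Eventually.of_forall fun z => by simp only [dzb]; ring)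
    have e2 : ∫ z in U, (g₁ z + I * g₂ z) / 2 * ψ z = ((∫ z in U, g₁ z * ψ z) +
        I * ∫ z in U, g₂ z * ψ z) / 2 := by
      rw [← integral_const_mul, ← integral_add (loc_test (hl h1) hψ)
        ((loc_test (hl h2) hψ).const_mul I), ← integral_div]
      exact integral_congr_ae (Eventually.of_forall fun z => by ring)
    rw [e1, e2, h ψ hψ, h' ψ hψ]
    ring

end Pool.Agent.MP_fcd29e_an.H45
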